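import Pool.Agent.Work.MP_5296b6_lc.R.Finite
import Pool.Agent.Work.MP_5296b6_lc.FinEnc

/-!
# Codes of functions on a fixed finite type, bounded reachability: real RAM version
-/

set_option autoImplicit false

namespace Pool.Agent.RRAM

open Function
open Pool.Agent.PT (piVals piVals_get? piVals_injective mem_piVals vecList mem_vecList ofVals
  piList mem_piList reachStep reach mem_reach)

variable {α β γ : Type} [Enc α] [Enc β] [Enc γ]

noncomputable instance encPi {ι δ : Type} [Finite ι] [Enc δ] : Enc (ι → δ) :=
  ⟨fun g => enc (piVals g), fun _ _ e => piVals_injective (Enc.inj e)⟩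

instance {ι δ : Type} [Finite ι] [Enc δ] [RFree δ] : RFree (ι → δ) :=
  ⟨fun g => RFree.std (PT.piVals g)⟩

theorem PTF.unsome {f : α → β} (h : PTF (fun a => Option.some (f a))) : PTF f := by
  have h1 : PTF (fun a => (enc (Option.some (f a)) : D)) := h.recode (fun _ => rfl)
  exact (PTF.comp (f := fun t : D => t.hd) (PTF.of_hd (fun _ => rfl)) h1).recode (fun _ => rfl)

theorem PTF.piVals {ι : Type} [Finite ι] {f : α → ι → β} (hf : PTF f) :
    PTF (fun a => PT.piVals (f a)) := hf.recode (fun _ => rfl)

theorem PTF.app {ι : Type} [Finite ι] {f : α → ι → β} (hf : PTF f) (i : ι) :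
    PTF (fun a => f a i) := by
  refine PTF.unsome ((hf.piVals.get? (PTF.const
    ((Finite.equivFin ι i : Fin (Nat.card ι)) : ℕ))).congr (fun a => ?_))
  rw [piVals_get?]

theorem PTF.ofFn {k : ℕ} {f : Fin k → α → β} (hf : ∀ i, PTF (f i)) :
    PTF (fun a => List.ofFn (fun i => f i a)) := by
  induction k with
  | zero => exact (PTF.const (β := List β) []).congr (fun a => by simp)
  | succ k ih =>
    exact (PTF.cons (hf 0) (ih (fun i => hf i.succ))).congr (fun a => by
      rw [List.ofFn_succ])

@[fun_prop]
theorem PTF.pi {ι : Type} [Finite ι] {f : α → ι → β} (hf : ∀ i, PTF (fun a => f a i)) :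
    PTF f :=
  (PTF.ofFn (f := fun (j : Fin (Nat.card ι)) a => f a ((Finite.equivFin ι).symm j))
    (fun j => hf _)).recode (fun _ => rfl)

theorem PTF.forall_fin {ι : Type} [Finite ι] {p : α → ι → Prop} [∀ a i, Decidable (p a i)]
    [∀ a, Decidable (∀ i, p a i)]
    (h : ∀ i, PTF (fun a => decide (p a i))) : PTF (fun a => decide (∀ i, p a i)) := by
  have h1 : PTF (fun a => (PT.piVals (fun i => decide (p a i))).all (fun b => b)) :=
    PTF.all' PTF.snd (PTF.piVals (PTF.pi h))
  refine h1.congr (fun a => ?_)
  rw [Bool.eq_iff_iff, List.all_eq_true]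
  simp [mem_piVals]

theorem PTF.exists_fin {ι : Type} [Finite ι] {p : α → ι → Prop} [∀ a i, Decidable (p a i)]
    [∀ a, Decidable (∃ i, p a i)]
    (h : ∀ i, PTF (fun a => decide (p a i))) : PTF (fun a => decide (∃ i, p a i)) := by
  have h1 : PTF (fun a => (PT.piVals (fun i => decide (p a i))).any (fun b => b)) :=
    PTF.any' PTF.snd (PTF.piVals (PTF.pi h))
  refine h1.congr (fun a => ?_)
  rw [Bool.eq_iff_iff, List.any_eq_true]
  simp [mem_piVals]

theorem PTF.vecList {k : ℕ} {l : α → List β} (hl : PTF l) : PTF (fun a => PT.vecList k (l a)) := by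
  induction k with
  | zero => exact PTF.const _
  | succ k ih =>
    exact PTF.map' (f := fun (_ : α) (p : β × List β) => p.1 :: p.2)
      (PTF.cons (PTF.fst.comp PTF.snd) (PTF.snd.comp PTF.snd)) (hl.product ih)


theorem PTF.piList {ι : Type} [Finite ι] {d : β} [CC d] {l : α → List β} (hl : PTF l) :
    PTF (fun a => PT.piList ι d (l a)) := by
  have h : PTF (fun v : List β => (PT.ofVals d v : ι → β)) :=
    PTF.pi (fun i => PTF.getD PTF.id (PTF.const _) (PTF.const _))
  exact PTF.map' (f := fun (_ : α) (v : List β) => (PT.ofVals d v : ι → β)) (h.comp PTF.snd)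
    (PTF.vecList hl)


theorem PTF.reach {univ : α → List β} {step : α → β → β → Bool} {start : α → β → Bool}
    {N : α → ℕ} (hu : PTF univ) (hs : PTF (fun p : α × (β × β) => step p.1 p.2.1 p.2.2))
    (h0 : PTF (fun p : α × β => start p.1 p.2)) (hN : PTF N) :
    PTF (fun a => PT.reach univ step start a (N a)) := by
  have hstep : PTF (fun p : α × List β => PT.reachStep univ step p.1 p.2) := by
    refine PTF.filter' (f := fun (p : α × List β) (t : β) => p.2.any (fun s => step p.1 s t)) ?_
      (hu.comp PTF.fst)
    refine PTF.any' (f := fun (q : (α × List β) × β) (s : β) => step q.1.1 s q.2) ?_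
      (PTF.snd.comp PTF.fst)
    exact hs.comp ((PTF.fst.comp (PTF.fst.comp PTF.fst)).pair
      (PTF.snd.pair (PTF.snd.comp PTF.fst)))
  have hsz : ∀ (l : List β) (p : β → Bool), sz (l.filter p) ≤ sz l := by
    intro l p
    induction l with
    | nil => exact le_refl _
    | cons b l ih =>
      rw [sz_cons, List.filter_cons]
      split
      · rw [sz_cons]; omega
      · omega
  refine PTF.nat_iterate (n := N) (init := fun a => (univ a).filter (start a))
    (step := fun p : α × List β => PT.reachStep univ step p.1 p.2) hN (PTF.filter' h0 hu) hstep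
    (fun a => sz (univ a)) hu.size (fun a i _ => ?_)
  cases i with
  | zero => exact hsz _ _
  | succ i => rw [iterate_succ_apply']; exact hsz _ _


end Pool.Agent.RRAM
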