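import Pool.Agent.Work.MP_5296b6_lc.DPMain
import Pool.Agent.Work.MP_5296b6_lc.R.FinEnc

/-!
# The dynamic program on words: the algorithm is polynomial-time on the real RAM
-/

set_option autoImplicit false

namespace Pool.Agent.RRAM

open Function

/-- Predicates decided in polynomial time. -/
def PTP {α : Type} [Enc α] (p : α → Prop) : Prop :=
  PTF (fun a => @decide (p a) (Classical.propDecidable _))

section ptp

variable {α β γ : Type} [Enc α] [Enc β] [Enc γ] {p q : α → Prop}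

theorem PTP.of_ptf [∀ a, Decidable (p a)] (h : PTF (fun a => decide (p a))) : PTP p :=
  h.congr (fun a => by congr)

theorem PTP.ptf (h : PTP p) [∀ a, Decidable (p a)] : PTF (fun a => decide (p a)) :=
  PTF.congr h (fun a => by congr)

theorem PTP.congr (h : PTP p) (e : ∀ a, p a ↔ q a) : PTP q := by
  have : p = q := funext (fun a => propext (e a))
  rwa [← this]

theorem PTP.and (hp : PTP p) (hq : PTP q) : PTP (fun a => p a ∧ q a) := by
  classical
  exact PTP.of_ptf (PTF.decide_and hp.ptf hq.ptf)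

theorem PTP.or (hp : PTP p) (hq : PTP q) : PTP (fun a => p a ∨ q a) := by
  classical
  exact PTP.of_ptf (PTF.decide_or hp.ptf hq.ptf)

theorem PTP.imp (hp : PTP p) (hq : PTP q) : PTP (fun a => p a → q a) := by
  classical
  exact PTP.of_ptf (PTF.decide_imp hp.ptf hq.ptf)

theorem PTP.iff (hp : PTP p) (hq : PTP q) : PTP (fun a => p a ↔ q a) := by
  classical
  exact PTP.of_ptf (PTF.decide_iff hp.ptf hq.ptf)

theorem PTP.not (hp : PTP p) : PTP (fun a => ¬ p a) := by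
  classical
  exact PTP.of_ptf (PTF.decide_not hp.ptf)

theorem PTP.const (c : Prop) : PTP (fun _ : α => c) := PTF.const _

theorem PTP.eq {f g : α → β} (hf : PTF f) (hg : PTF g) : PTP (fun a => f a = g a) := by
  classical
  exact PTP.of_ptf (PTF.eq hf hg)

theorem PTP.ne {f g : α → β} (hf : PTF f) (hg : PTF g) : PTP (fun a => f a ≠ g a) :=
  (PTP.eq hf hg).not

theorem PTP.le {f g : α → ℕ} (hf : PTF f) (hg : PTF g) : PTP (fun a => f a ≤ g a) :=
  PTP.of_ptf (PTF.le hf hg)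

theorem PTP.lt {f g : α → ℕ} (hf : PTF f) (hg : PTF g) : PTP (fun a => f a < g a) :=
  PTP.of_ptf (PTF.lt hf hg)

theorem PTP.mem {f : α → β} {l : α → List β} (hf : PTF f) (hl : PTF l) :
    PTP (fun a => f a ∈ l a) := by
  classical
  exact PTP.of_ptf (PTF.mem hf hl)

theorem PTP.forall_fin {ι : Type} [Finite ι] {r : α → ι → Prop}
    (h : ∀ i, PTP (fun a => r a i)) : PTP (fun a => ∀ i, r a i) := by
  classical
  exact PTP.of_ptf (PTF.forall_fin (fun i => (h i).ptf))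

theorem PTP.exists_fin {ι : Type} [Finite ι] {r : α → ι → Prop}
    (h : ∀ i, PTP (fun a => r a i)) : PTP (fun a => ∃ i, r a i) := by
  classical
  exact PTP.of_ptf (PTF.exists_fin (fun i => (h i).ptf))

theorem PTP.comp {r : β → Prop} {f : α → β} (hr : PTP r) (hf : PTF f) : PTP (fun a => r (f a)) :=
  PTF.comp hr hf

/-- Bounded quantification over the elements of a list. -/
theorem PTP.forall_mem {r : α → β → Prop} {l : α → List β}
    (hr : PTP (fun x : α × β => r x.1 x.2)) (hl : PTF l) : PTP (fun a => ∀ b ∈ l a, r a b) := by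
  classical
  have h1 := PTF.all' (f := fun a b => decide (r a b)) hr.ptf hl
  refine PTP.of_ptf (h1.congr (fun a => ?_))
  rw [Bool.eq_iff_iff, List.all_eq_true]
  simp

theorem PTP.exists_mem {r : α → β → Prop} {l : α → List β}
    (hr : PTP (fun x : α × β => r x.1 x.2)) (hl : PTF l) : PTP (fun a => ∃ b ∈ l a, r a b) := by
  classical
  have h1 := PTF.any' (f := fun a b => decide (r a b)) hr.ptf hl
  refine PTP.of_ptf (h1.congr (fun a => ?_))
  rw [Bool.eq_iff_iff, List.any_eq_true]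
  simp

end ptp

end Pool.Agent.RRAM

namespace Pool.Agent.Work.MP_5296b6_lc.R

open Pool.Agent.RRAM Pool.Agent.Work.MP_5296b6_lc

variable {S : Type} [Finite S] {K : ℕ} {α : Type} [Enc α]

theorem ptf_sth {s : α → St S K} (hs : PTF s) (κ : S) : PTF (fun a => sth (s a) κ) :=
  PTF.app (PTF.fst.comp hs) κ

theorem ptf_sg {s : α → St S K} (hs : PTF s) (κ : S) : PTF (fun a => sg (s a) κ) :=
  PTF.app (PTF.fst.comp (PTF.snd.comp hs)) κ

theorem ptf_ssl {s : α → St S K} (hs : PTF s) (k : Fin K) : PTF (fun a => ssl (s a) k) :=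
  PTF.app (PTF.fst.comp (PTF.snd.comp (PTF.snd.comp hs))) k

theorem ptf_spl {s : α → St S K} (hs : PTF s) (k : Fin K) : PTF (fun a => spl (s a) k) :=
  PTF.app (PTF.fst.comp (PTF.snd.comp (PTF.snd.comp (PTF.snd.comp hs)))) k

theorem ptf_str {s : α → St S K} (hs : PTF s) (τ : Tr S K) : PTF (fun a => str (s a) τ) :=
  PTF.app (PTF.snd.comp (PTF.snd.comp (PTF.snd.comp (PTF.snd.comp hs)))) τ

theorem ptf_ltr {I : α → WInst S} {r : α → ℕ} (hI : PTF I) (hr : PTF r) (κ : S) :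
    PTF (fun a => ltr (I a) κ (r a)) :=
  PTF.getD (PTF.app (PTF.snd.comp hI) κ) hr (PTF.const _)

theorem ptp_DA {I : α → WInst S} {s : α → St S K} {t : α → ℕ × Bool} (hI : PTF I) (hs : PTF s)
    (ht : PTF t) : PTP (fun a => DA (I a) (sth (s a)) (t a)) := by
  unfold DA
  refine PTP.or (PTP.exists_fin (fun κ => PTP.mem (ht.pair (PTF.const _)) ?_))
    (PTP.forall_fin (fun κ => PTP.mem (ht.pair (PTF.const _)) ?_))
  · exact PTF.take (PTF.app (PTF.snd.comp hI) κ) (ptf_sth hs κ)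
  · exact PTF.take (PTF.app (PTF.snd.comp hI) κ) (ptf_sth hs κ)

theorem ptp_Pls {I : α → WInst S} {s : α → St S K} {t : α → ℕ × Bool} (hI : PTF I) (hs : PTF s)
    (ht : PTF t) : PTP (fun a => Pls (I a) (s a) (t a)) := by
  unfold Pls
  have h1 : ∀ k, PTP (fun a => ssl (s a) k = some (t a).1) := fun k =>
    PTP.eq (ptf_ssl hs k) (PTF.some (PTF.fst.comp ht))
  refine PTP.or (PTP.exists_fin (fun k => (h1 k).and ?_)) (PTP.and (PTP.forall_fin
    (fun k => (h1 k).not)) (ptp_DA hI hs ht))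
  exact PTP.eq (PTF.ite (PTF.eq (PTF.snd.comp ht) (PTF.const _)) (PTF.snd.comp (ptf_spl hs k))
    (PTF.fst.comp (ptf_spl hs k))) (PTF.const _)

theorem ptp_Pls' {I : α → WInst S} {s : α → St S K} {t : α → ℕ × Bool} (hI : PTF I) (hs : PTF s)
    (ht : PTF t) (κ : S) (d : Bool) : PTP (fun a => Pls' (I a) κ d (s a) (t a)) := by
  unfold Pls'
  exact (ptp_Pls hI hs ht).or ((PTP.const _).and
    (PTP.eq (PTF.fst.comp (ptf_ltr hI (ptf_sth hs κ) κ)) ht))

theorem ptp_Compat {v : α → ℕ} {s s2 : α → St S K} (hv : PTF v) (hs : PTF s) (hs2 : PTF s2)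
    (κ : S) (d : Bool) (τ τ' : Tr S K) : PTP (fun a => Compat κ d (v a) (s a) (s2 a) τ τ') := by
  unfold Compat
  refine (PTP.const _).and (PTP.and ?_ (PTP.and ?_ (PTP.and ?_ (PTP.and ?_ (PTP.const _)))))
  · exact (PTP.lt (PTF.const _) (ptf_sg hs κ)).imp (PTP.const _)
  · exact PTP.forall_fin (fun k => PTP.forall_fin (fun k' => (PTP.eq (ptf_ssl hs k)
      (ptf_ssl hs2 k')).imp ((PTP.ne (ptf_ssl hs k) (PTF.const _)).imp (PTP.const _))))
  · exact (PTP.const _).imp (PTP.forall_fin (fun k => (PTP.eq (ptf_ssl hs k)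
      (PTF.some hv)).imp (PTP.const _)))
  · exact (PTP.const _).imp (PTP.forall_fin (fun k => (PTP.eq (ptf_ssl hs2 k)
      (PTF.some hv)).imp (PTP.const _)))

omit [Finite S] in
theorem step_iff {I : WInst S} {κ : S} {d : Bool} {s s2 : St S K} : Step I κ d s s2 ↔
    (sth s κ < (I.2 κ).length) ∧ (sth s2 κ = sth s κ + 1) ∧
    (∀ κ', κ' ≠ κ → sth s2 κ' = sth s κ') ∧
    (d = false → sg s2 κ = sg s κ) ∧
    (d = true → (ltr I κ (sth s κ)).2 = true → sg s2 κ = sg s κ + 1) ∧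
    (d = true → (ltr I κ (sth s κ)).2 = false → sg s2 κ + 1 = sg s κ) ∧
    (∀ κ', κ' ≠ κ → sg s2 κ' = sg s κ') ∧
    (d = true → ¬ Pls I s (ltr I κ (sth s κ)).1) ∧
    (∀ k, ssl s k ≠ none → ssl s k ≠ some (ltr I κ (sth s κ)).1.1 →
      ssl s2 k = ssl s k ∧ spl s2 k = spl s k) ∧
    (∀ k, (ssl s k = none ∨ ssl s k = some (ltr I κ (sth s κ)).1.1) →
      (ssl s2 k = none ∨ ssl s2 k = some (ltr I κ (sth s κ)).1.1)) ∧
    (∀ k k', ssl s2 k = some (ltr I κ (sth s κ)).1.1 →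
      ssl s2 k' = some (ltr I κ (sth s κ)).1.1 → k = k') ∧
    ((∃ k, ssl s2 k = some (ltr I κ (sth s κ)).1.1) ↔
    ¬ ((Pls' I κ d s ((ltr I κ (sth s κ)).1.1, false) ↔ DA I (sth s2) ((ltr I κ (sth s κ)).1.1, false)) ∧
      (Pls' I κ d s ((ltr I κ (sth s κ)).1.1, true) ↔ DA I (sth s2) ((ltr I κ (sth s κ)).1.1, true)) ∧
      (DA I (sth s2) ((ltr I κ (sth s κ)).1.1, false) ↔
        DA I (sth s2) ((ltr I κ (sth s κ)).1.1, true)))) ∧
    (∀ k, ssl s2 k = some (ltr I κ (sth s κ)).1.1 →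
      ((spl s2 k).1 = true ↔ Pls' I κ d s ((ltr I κ (sth s κ)).1.1, false)) ∧
      ((spl s2 k).2 = true ↔ Pls' I κ d s ((ltr I κ (sth s κ)).1.1, true))) ∧
    (∀ τ', str s2 τ' = true ↔
      ∃ τ, str s τ = true ∧ Compat κ d (ltr I κ (sth s κ)).1.1 s s2 τ τ') := by
  constructor
  · intro h
    exact ⟨h.lt, h.th, h.th', h.g0, h.g1, h.g2, h.g', h.new, h.old, h.here, h.uniq, h.irr, h.pl,
      h.tr⟩
  · rintro ⟨h1, h2, h3, h4, h5, h6, h7, h8, h9, h10, h11, h12, h13, h14⟩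
    exact ⟨h1, h2, h3, h4, h5, h6, h7, h8, h9, h10, h11, h12, h13, h14⟩

theorem ptp_Step {I : α → WInst S} {s s2 : α → St S K} (hI : PTF I) (hs : PTF s) (hs2 : PTF s2)
    (κ : S) (d : Bool) : PTP (fun a => Step (I a) κ d (s a) (s2 a)) := by
  have hL := ptf_ltr hI (ptf_sth hs κ) κ
  have hv : PTF (fun a => (ltr (I a) κ (sth (s a) κ)).1.1) := PTF.fst.comp (PTF.fst.comp hL)
  have ho : PTF (fun a => (ltr (I a) κ (sth (s a) κ)).2) := PTF.snd.comp hL
  have hvb : ∀ b : Bool, PTF (fun a => ((ltr (I a) κ (sth (s a) κ)).1.1, b)) := fun b =>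
    hv.pair (PTF.const b)
  have hsl : ∀ k, PTP (fun a => ssl (s a) k = some (ltr (I a) κ (sth (s a) κ)).1.1) := fun k =>
    PTP.eq (ptf_ssl hs k) (PTF.some hv)
  have hsl2 : ∀ k, PTP (fun a => ssl (s2 a) k = some (ltr (I a) κ (sth (s a) κ)).1.1) := fun k =>
    PTP.eq (ptf_ssl hs2 k) (PTF.some hv)
  have hn : ∀ k, PTP (fun a => ssl (s a) k = none) := fun k =>
    PTP.eq (ptf_ssl hs k) (PTF.const none)
  have hn2 : ∀ k, PTP (fun a => ssl (s2 a) k = none) := fun k =>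
    PTP.eq (ptf_ssl hs2 k) (PTF.const none)
  refine PTP.congr (p := fun a => _) ?_ (fun a => (step_iff (I := I a) (κ := κ) (d := d)
    (s := s a) (s2 := s2 a)).symm)
  refine PTP.and ?_ (PTP.and ?_ (PTP.and ?_ (PTP.and ?_ (PTP.and ?_ (PTP.and ?_ (PTP.and ?_
    (PTP.and ?_ (PTP.and ?_ (PTP.and ?_ (PTP.and ?_ (PTP.and ?_ (PTP.and ?_ ?_))))))))))))
  · exact PTP.lt (ptf_sth hs κ) (PTF.length (PTF.app (PTF.snd.comp hI) κ))
  · exact PTP.eq (ptf_sth hs2 κ) (PTF.succ (ptf_sth hs κ))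
  · exact PTP.forall_fin (fun κ' => (PTP.const _).imp (PTP.eq (ptf_sth hs2 κ') (ptf_sth hs κ')))
  · exact (PTP.const _).imp (PTP.eq (ptf_sg hs2 κ) (ptf_sg hs κ))
  · exact (PTP.const _).imp ((PTP.eq ho (PTF.const _)).imp
      (PTP.eq (ptf_sg hs2 κ) (PTF.succ (ptf_sg hs κ))))
  · exact (PTP.const _).imp ((PTP.eq ho (PTF.const _)).imp
      (PTP.eq (PTF.succ (ptf_sg hs2 κ)) (ptf_sg hs κ)))
  · exact PTP.forall_fin (fun κ' => (PTP.const _).imp (PTP.eq (ptf_sg hs2 κ') (ptf_sg hs κ')))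
  · exact (PTP.const _).imp (ptp_Pls hI hs (PTF.fst.comp hL)).not
  · exact PTP.forall_fin (fun k => (hn k).not.imp ((hsl k).not.imp
      ((PTP.eq (ptf_ssl hs2 k) (ptf_ssl hs k)).and (PTP.eq (ptf_spl hs2 k) (ptf_spl hs k)))))
  · exact PTP.forall_fin (fun k => ((hn k).or (hsl k)).imp ((hn2 k).or (hsl2 k)))
  · exact PTP.forall_fin (fun k => PTP.forall_fin (fun k' => (hsl2 k).imp ((hsl2 k').imp
      (PTP.const _))))
  · exact (PTP.exists_fin hsl2).iff (PTP.not (PTP.and ((ptp_Pls' hI hs (hvb false) κ d).iff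
      (ptp_DA hI hs2 (hvb false))) (PTP.and ((ptp_Pls' hI hs (hvb true) κ d).iff
      (ptp_DA hI hs2 (hvb true))) ((ptp_DA hI hs2 (hvb false)).iff
      (ptp_DA hI hs2 (hvb true))))))
  · exact PTP.forall_fin (fun k => (hsl2 k).imp (PTP.and
      ((PTP.eq (PTF.fst.comp (ptf_spl hs2 k)) (PTF.const _)).iff (ptp_Pls' hI hs (hvb false) κ d))
      ((PTP.eq (PTF.snd.comp (ptf_spl hs2 k)) (PTF.const _)).iff
        (ptp_Pls' hI hs (hvb true) κ d))))
  · exact PTP.forall_fin (fun τ' => (PTP.eq (ptf_str hs2 τ') (PTF.const _)).iff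
      (PTP.exists_fin (fun τ => (PTP.eq (ptf_str hs τ) (PTF.const _)).and
        (ptp_Compat hv hs hs2 κ d τ τ'))))

theorem ptf_stepB : PTF (fun p : (ℕ × WInst S) × (St S K × St S K) =>
    stepB K p.1 p.2.1 p.2.2) := by
  have h : PTP (fun p : (ℕ × WInst S) × (St S K × St S K) =>
      p.2.1 = p.2.2 ∨ ∃ κ d, Step p.1.2 κ d p.2.1 p.2.2) :=
    (PTP.eq (PTF.fst.comp PTF.snd) (PTF.snd.comp PTF.snd)).or (PTP.exists_fin (fun κ =>
      PTP.exists_fin (fun d => ptp_Step (PTF.snd.comp PTF.fst) (PTF.fst.comp PTF.snd)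
        (PTF.snd.comp PTF.snd) κ d)))
  exact h

theorem ptf_startB : PTF (fun p : (ℕ × WInst S) × St S K => startB K p.1 p.2) := by
  have hs : PTF (fun p : (ℕ × WInst S) × St S K => p.2) := PTF.snd
  have h : PTP (fun p : (ℕ × WInst S) × St S K => Start p.2) := by
    refine PTP.congr (p := fun p : (ℕ × WInst S) × St S K => (∀ κ, sth p.2 κ = 0) ∧
      (∀ κ, sg p.2 κ = 0) ∧ (∀ k, ssl p.2 k = none) ∧
      ∀ τ, str p.2 τ = true ↔ (τ.2.2.1 = false ∧ τ.2.2.2 = false)) ?_ (fun p => ?_)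
    · exact (PTP.forall_fin (fun κ => PTP.eq (ptf_sth hs κ) (PTF.const _))).and
        ((PTP.forall_fin (fun κ => PTP.eq (ptf_sg hs κ) (PTF.const _))).and
        ((PTP.forall_fin (fun k => PTP.eq (ptf_ssl hs k) (PTF.const _))).and
        (PTP.forall_fin (fun τ => (PTP.eq (ptf_str hs τ) (PTF.const _)).iff (PTP.const _)))))
    · constructor
      · rintro ⟨h1, h2, h3, h4⟩; exact ⟨h1, h2, h3, h4⟩
      · rintro ⟨h1, h2, h3, h4⟩; exact ⟨h1, h2, h3, h4⟩
  exact h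

theorem ptf_accB (opp : S → S) : PTF (fun p : (ℕ × WInst S) × St S K => accB opp K p.1 p.2) := by
  have hs : PTF (fun p : (ℕ × WInst S) × St S K => p.2) := PTF.snd
  have h : PTP (fun p : (ℕ × WInst S) × St S K => Acc p.1.2 opp p.1.1 p.2) := by
    refine PTP.congr (p := fun p : (ℕ × WInst S) × St S K =>
      (∀ κ, sth p.2 κ + sth p.2 (opp κ) = p.1.1) ∧
      (∀ v ∈ List.range p.1.2.1, ∀ b, Pls p.1.2 p.2 (v, b)) ∧
      (∀ κ, sg p.2 κ = sg p.2 (opp κ)) ∧
      ∀ τ, str p.2 τ = true → (∀ κ, 0 < sg p.2 κ → τ.1 κ = τ.1 (opp κ)) →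
        ¬ (τ.2.2.1 = true ∧ τ.2.2.2 = true)) ?_ (fun p => ?_)
    · refine PTP.and ?_ (PTP.and ?_ (PTP.and ?_ ?_))
      · exact PTP.forall_fin (fun κ => PTP.eq ((ptf_sth hs κ).add (ptf_sth hs (opp κ)))
          (PTF.fst.comp PTF.fst))
      · refine PTP.forall_mem (r := fun (p : (ℕ × WInst S) × St S K) (v : ℕ) =>
          ∀ b, Pls p.1.2 p.2 (v, b)) ?_ (PTF.range (PTF.fst.comp (PTF.snd.comp PTF.fst)))
        exact PTP.forall_fin (fun b => ptp_Pls (PTF.snd.comp (PTF.fst.comp PTF.fst))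
          (PTF.snd.comp PTF.fst) (PTF.snd.pair (PTF.const b)))
      · exact PTP.forall_fin (fun κ => PTP.eq (ptf_sg hs κ) (ptf_sg hs (opp κ)))
      · exact PTP.forall_fin (fun τ => (PTP.eq (ptf_str hs τ) (PTF.const _)).imp
          ((PTP.forall_fin (fun κ => (PTP.lt (PTF.const _) (ptf_sg hs κ)).imp
            (PTP.const _))).imp (PTP.const _)))
    · constructor
      · rintro ⟨h1, h2, h3, h4⟩
        exact ⟨h1, fun v hv => h2 v (List.mem_range.2 hv), h3, h4⟩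
      · rintro ⟨h1, h2, h3, h4⟩
        exact ⟨h1, fun v hv => h2 v (List.mem_range.1 hv), h3, h4⟩
  exact h

theorem ptf_univ : PTF (fun a : ℕ × WInst S => univ S K a) := by
  unfold univ
  refine PTF.product (PTF.piList ?_) (PTF.product (PTF.piList ?_) (PTF.product (PTF.piList ?_)
    (PTF.product (PTF.const _) (PTF.const _))))
  · exact PTF.range (PTF.succ PTF.fst)
  · exact PTF.range (PTF.succ PTF.fst)
  · exact PTF.cons (PTF.const _) (PTF.map' (f := fun (_ : ℕ × WInst S) (v : ℕ) => Option.some v)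
      (PTF.some PTF.snd) (PTF.range (PTF.fst.comp PTF.snd)))

theorem ptf_alg (opp : S → S) (K : ℕ) : PTF (alg opp K : ℕ × WInst S → Bool) := by
  unfold alg
  exact PTF.any' (f := fun (a : ℕ × WInst S) (s : St S K) => accB opp K a s) (ptf_accB opp)
    (PTF.reach ptf_univ ptf_stepB ptf_startB (PTF.mul (PTF.const _) PTF.fst))

end Pool.Agent.Work.MP_5296b6_lc.R
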