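import Pool.Agent.Work.MP_5296b6_lc.GeoStmts
import Pool.Agent.Work.RRAM.Final

/-!
# The generic algorithm on the real RAM: statement, and the decision version for real inputs
-/

set_option autoImplicit false

namespace Pool.Agent.Scatter.R

open Pool.Agent.RRAM Pool.Agent.MaxScatter Pool.Agent.Scatter

/-- Points, contexts, values and comparisons (real RAM version). -/
structure Cmp (f : ℕ) (ga al : Type) [Enc ga] [Enc al] where
  U : ga → Prop
  V : al → Prop
  h : Fin f → al → ℝ
  lv : ga → ℝ
  le0 : Fin f → al × al → Bool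
  leL : Fin f → ga × (al × al) → Bool
  ptf0 : ∀ i, PTF (le0 i)
  ptfL : ∀ i, PTF (leL i)
  spec0 : ∀ i y z, V y → V z → (le0 i (y, z) = true ↔ h i y ≤ h i z)
  specL : ∀ i c y z, U c → V y → V z → (leL i (c, (y, z)) = true ↔ h i y + lv c ≤ h i z)

/-- The relation `distance ≥ L`. -/
def Cmp.rel {f : ℕ} {ga al : Type} [Enc ga] [Enc al] (C : Cmp f ga al) (c : ga) (y z : al) :
    Prop := ∃ i, C.lv c ≤ |C.h i y - C.h i z|

/-- Decision: can the path from `x` to `y` be completed through the points of `R`? -/
def ClaimDec : Prop :=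
  ∀ (f : ℕ) (ga al : Type) [Enc ga] [Enc al] (C : Cmp f ga al),
    ∃ dec : ga × ((al × al) × List al) → Bool, PTF dec ∧
      ∀ c x y R, C.U c → C.V x → C.V y → (∀ r ∈ R, C.V r) →
        (dec (c, ((x, y), R)) = true ↔ ∃ R' : List al, R'.Perm R ∧ Completes (C.rel c) x y R')

theorem perm_map_lift {α β : Type} {g : α → β} {Q R' : List β} (h : Q.Perm R') :
    ∀ P : List α, P.map g = Q → ∃ R : List α, R.Perm P ∧ R.map g = R' := by
  induction h with
  | nil =>
    intro P hP
    exact ⟨P, List.Perm.refl _, hP⟩
  | cons x h ih =>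
    intro P hP
    cases P with
    | nil => simp at hP
    | cons p P =>
      simp only [List.map_cons, List.cons.injEq] at hP
      obtain ⟨R, h1, h2⟩ := ih P hP.2
      exact ⟨p :: R, h1.cons p, by simp [h2, hP.1]⟩
  | swap x y l =>
    intro P hP
    match P, hP with
    | [], hP => simp at hP
    | [p], hP => simp at hP
    | p :: q :: P, hP =>
      simp only [List.map_cons, List.cons.injEq] at hP
      exact ⟨q :: p :: P, List.Perm.swap _ _ _, by simp [hP.1, hP.2.1, hP.2.2]⟩
  | trans h1 h2 ih1 ih2 =>
    intro P hP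
    obtain ⟨R1, a1, a2⟩ := ih1 P hP
    obtain ⟨R2, b1, b2⟩ := ih2 R1 a2
    exact ⟨R2, b1.trans a1, b2⟩

/-- Scalar product of the first `s` entries. -/
noncomputable def dot : ℕ → List ℝ → List ℝ → ℝ
  | 0, _, _ => 0
  | s + 1, u, v => dot s u v + u.getD s 0 * v.getD s 0

theorem dot_ptf {α : Type} [Enc α] (s : ℕ) {u v : α → List ℝ} (hu : PTF u) (hv : PTF v) :
    PTF (fun x => dot s (u x) (v x)) := by
  induction s with
  | zero => exact PTF.const 0
  | succ s ih =>
    unfold dot
    exact ih.radd ((hu.getD (PTF.const s) (PTF.const 0)).rmul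
      (hv.getD (PTF.const s) (PTF.const 0)))

theorem dot_eq (s : ℕ) (u v : List ℝ) :
    dot s u v = ∑ j : Fin s, u.getD j 0 * v.getD j 0 := by
  induction s with
  | zero => simp [dot]
  | succ s ih => rw [dot, ih, Fin.sum_univ_castSucc]; rfl

theorem drop_flatten {s : ℕ} : ∀ (l : List (List ℝ)) (v : ℕ), (∀ r ∈ l, r.length = s) →
    l.flatten.drop (v * s) = (l.drop v).flatten := by
  intro l
  induction l with
  | nil => intro v _; simp
  | cons r l ih =>
    intro v h
    cases v with
    | zero => simp
    | succ v =>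
      have h1 : r.length = s := h r (by simp)
      rw [List.flatten_cons, List.drop_succ_cons, ← ih v (fun r' h' => h r' (by simp [h'])),
        List.drop_append, List.drop_eq_nil_of_le (by rw [h1]; nlinarith), List.nil_append]
      congr 1
      rw [h1, Nat.succ_mul]
      omega

theorem getD_drop_flatten {s : ℕ} (l : List (List ℝ)) (v j : ℕ) (h : ∀ r ∈ l, r.length = s)
    (hj : j < s) : (l.flatten.drop (v * s)).getD j 0 = (l.getD v []).getD j 0 := by
  rw [drop_flatten l v h]
  by_cases hv : v < l.length
  · rw [List.drop_eq_getElem_cons hv, List.flatten_cons, List.getD_append _ _ _ _ (by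
      rw [h _ (List.getElem_mem hv)]; exact hj), List.getD_eq_getElem _ _ hv]
  · have e : l.getD v [] = [] := List.getD_eq_default _ _ (by omega)
    rw [List.drop_eq_nil_of_le (by omega), e]
    simp

/-- Values of the functionals at the points, from the input of the real RAM. -/
noncomputable def vals (s f : ℕ) (x : List ℝ) : List (List ℝ) :=
  (List.range ((x.tail.drop (f * s)).length / s)).map fun v =>
    (List.range f).map fun i =>
      dot s ((x.tail.take (f * s)).drop (i * s)) ((x.tail.drop (f * s)).drop (v * s))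

theorem vals_ptf (s f : ℕ) : PTF (vals s f) := by
  unfold vals
  have h0 : PTF (fun q : (List ℝ × ℕ) × ℕ => dot s ((q.1.1.tail.take (f * s)).drop (q.2 * s))
      ((q.1.1.tail.drop (f * s)).drop (q.1.2 * s))) := by
    refine dot_ptf s ?_ ?_ <;> fun_prop
  refine PTF.map' (f := fun (x : List ℝ) (v : ℕ) => (List.range f).map fun i =>
      dot s ((x.tail.take (f * s)).drop (i * s)) ((x.tail.drop (f * s)).drop (v * s))) ?_ ?_
  · exact PTF.map' (f := fun (q : List ℝ × ℕ) (i : ℕ) =>
      dot s ((q.1.tail.take (f * s)).drop (i * s)) ((q.1.tail.drop (f * s)).drop (q.2 * s))) h0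
      (PTF.const _)
  · fun_prop

theorem length_flatten_uniform {s : ℕ} (l : List (List ℝ)) (h : ∀ r ∈ l, r.length = s) :
    l.flatten.length = l.length * s := by
  induction l with
  | nil => simp
  | cons r l ih =>
    rw [List.flatten_cons, List.length_append, ih (fun r' h' => h r' (by simp [h'])),
      h r (by simp), List.length_cons]
    ring

theorem vals_eq {s f : ℕ} (h1 : 1 ≤ s) (L : ℝ) (a : Fin f → Fin s → ℝ)
    (P : List (Fin s → ℝ)) :
    vals s f (ramInput L a P) = P.map (fun q => List.ofFn (fun i => ∑ j, a i j * q j)) := by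
  have hA : ∀ r ∈ (List.ofFn fun i => List.ofFn (a i)), r.length = s := by
    intro r hr
    obtain ⟨i, rfl⟩ := List.mem_ofFn.1 hr
    simp
  have hG : ∀ r ∈ P.map List.ofFn, r.length = s := by
    intro r hr
    obtain ⟨q, _, rfl⟩ := List.mem_map.1 hr
    simp
  have lA := length_flatten_uniform _ hA
  have lG := length_flatten_uniform _ hG
  rw [List.length_ofFn] at lA
  rw [List.length_map] at lG
  unfold vals ramInput
  rw [List.tail_cons]
  have e1 : ((List.ofFn fun i => List.ofFn (a i)).flatten ++ (P.map List.ofFn).flatten).take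
      (f * s) = (List.ofFn fun i => List.ofFn (a i)).flatten := by
    rw [← lA, List.take_left]
  have e2 : ((List.ofFn fun i => List.ofFn (a i)).flatten ++ (P.map List.ofFn).flatten).drop
      (f * s) = (P.map List.ofFn).flatten := by
    rw [← lA, List.drop_left]
  rw [e1, e2, lG, Nat.mul_div_cancel _ (by omega)]
  refine List.ext_getElem (by simp) fun v hv hv' => ?_
  have hvP : v < P.length := by simpa using hv
  rw [List.getElem_map, List.getElem_map, List.getElem_range]
  refine List.ext_getElem (by simp) fun i hi hi' => ?_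
  have hif : i < f := by simpa using hi
  rw [List.getElem_map, List.getElem_range, List.getElem_ofFn, dot_eq]
  refine Finset.sum_congr rfl fun j _ => ?_
  rw [getD_drop_flatten _ _ _ hA j.2, getD_drop_flatten _ _ _ hG j.2]
  have g1 : (List.ofFn fun i => List.ofFn (a i)).getD i [] = List.ofFn (a ⟨i, hif⟩) := by
    rw [List.getD_eq_getElem _ _ (by simpa using hif), List.getElem_ofFn]
  have g2 : (P.map List.ofFn).getD v [] = List.ofFn P[v] := by
    rw [List.getD_eq_getElem _ _ (by simpa using hvP), List.getElem_map]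
  rw [g1, g2, List.getD_eq_getElem _ _ (by simp), List.getD_eq_getElem _ _ (by simp),
    List.getElem_ofFn, List.getElem_ofFn]

end Pool.Agent.Scatter.R
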