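import Pool.Agent.Work.RRAM.Auto

/-!
# Finite types on the real RAM (copy of the beginning of `PT/Clock`)
-/

set_option autoImplicit false

namespace Pool.Agent.RRAM

open Function

/-- An encoding of a finite type. -/
@[reducible] noncomputable def Enc.ofFinite (α : Type) [Finite α] : Enc α :=
  ⟨fun a => enc ((Finite.equivFin α a : Fin (Nat.card α)) : ℕ), fun a b h => by
    exact (Finite.equivFin α).injective (Fin.ext (Enc.inj h))⟩

theorem PTF.finite_case {ι α β : Type} [Finite ι] [Enc ι] [RFree ι] [Enc α] [Enc β] {F : ι → α → β}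
    (h : ∀ i, PTF (F i)) : PTF (fun p : ι × α => F p.1 p.2) := by
  classical
  cases isEmpty_or_nonempty ι with
  | inl hι => exact PTF.of_id (fun p => isEmptyElim p.1)
  | inr hι =>
    obtain ⟨i0⟩ := hι
    have key : ∀ L : List ι, ∃ g : ι × α → β, PTF g ∧ ∀ p, p.1 ∈ L → g p = F p.1 p.2 := by
      intro L
      induction L with
      | nil => exact ⟨fun p => F i0 p.2, (h i0).comp PTF.snd, by simp⟩
      | cons i L ih =>
        obtain ⟨g, hg, hL⟩ := ih
        refine ⟨fun p => if p.1 = i then F i p.2 else g p,
          PTF.ite (PTF.eq PTF.fst (PTF.const i)) ((h i).comp PTF.snd) hg, fun p hp => ?_⟩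
        by_cases e : p.1 = i
        · simp [e]
        · have : p.1 ∈ L := by
            rcases List.mem_cons.1 hp with h | h
            · exact absurd h e
            · exact h
          simp [e, hL p this]
    obtain ⟨g, hg, hL⟩ := key (@Finset.univ ι (Fintype.ofFinite ι)).toList
    exact hg.congr (fun p => hL p (by simp))

/-- Every function on a finite type is polynomial-time. -/
theorem PTF.of_finite {α β : Type} [Finite α] [Enc α] [RFree α] [Enc β] [RFree β] (f : α → β) :
    PTF f :=
  (PTF.finite_case (F := fun i (_ : Unit) => f i) (fun i => PTF.const (f i))).comp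
    (PTF.id.pair (PTF.const ()))

theorem PTF.set {α β : Type} [Enc α] [Enc β] {l : α → List β} {n : α → ℕ} {f : α → β}
    (hl : PTF l) (hn : PTF n) (hf : PTF f) : PTF (fun a => (l a).set (n a) (f a)) := by
  refine (PTF.ite (p := fun a => n a < (l a).length) (hn.lt hl.length)
    ((hl.take hn).append (PTF.cons hf (hl.drop hn.succ))) hl).congr (fun a => ?_)
  rw [List.set_eq_take_append_cons_drop]

/-- Bounded size of finitely many objects. -/
theorem exists_sz_bound (α : Type) [Finite α] [Enc α] : ∃ C : ℕ, ∀ a : α, sz a ≤ C := by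
  obtain ⟨C, hC⟩ := Set.finite_range (fun a : α => sz a) |>.bddAbove
  exact ⟨C, fun a => hC ⟨a, rfl⟩⟩

theorem sz_set_le {β : Type} [Enc β] (C : ℕ) (b d : β) : ∀ (l : List β) (i : ℕ),
    sz b ≤ sz (l.getD i d) + C → sz (l.set i b) ≤ sz l + C := by
  intro l
  induction l with
  | nil => intro i h; simp
  | cons c l ih =>
    intro i h
    cases i with
    | zero =>
      simp only [List.getD_cons_zero] at h
      rw [List.set_cons_zero, sz_cons, sz_cons]; omega
    | succ i =>
      rw [List.getD_cons_succ] at h
      rw [List.set_cons_succ, sz_cons, sz_cons]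
      have := ih i h
      omega


end Pool.Agent.RRAM
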